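import Pool.Agent.WAQ.StmtsI

set_option autoImplicit false

namespace Pool.Agent.WAQ.H2

variable [Par]

open Pool.Agent.WAQ

theorem step_ok {F : Type} [Field F] {l : Letter} {z z' : F × F × F}
    (h : Step l z z') : OnU z ∧ OnU z' ∧ l.ok := by
  obtain ⟨h1, h2, h3⟩ := h
  refine ⟨h1, h2, ?_⟩
  cases l with
  | act a b c e => exact h3.1
  | sw => trivial
  | t0 => trivial
  | tp => trivial
  | tm => trivial
  | jj => trivial

theorem run_onU {F : Type} [Field F] (L : List Letter) :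
    ∀ z z' : F × F × F, Run L z z' → OnU z ∧ OnU z' ∧ ∀ l ∈ L, l.ok := by
  induction L with
  | nil =>
    rintro z z' ⟨h1, rfl⟩
    exact ⟨h1, h1, fun l hl => by simp at hl⟩
  | cons l L ih =>
    rintro z z' ⟨z1, h1, h2⟩
    obtain ⟨a1, a2, a3⟩ := step_ok h1
    obtain ⟨b1, b2, b3⟩ := ih z1 z' h2
    refine ⟨a1, b2, ?_⟩
    intro m hm
    rcases List.mem_cons.1 hm with rfl | hm
    · exact a3
    · exact b3 m hm

theorem app : AppStmt := by
  intro F _ L M z z'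
  refine ⟨?_, run_onU L z z'⟩
  induction L generalizing z with
  | nil =>
    constructor
    · intro h
      exact ⟨z, ⟨(run_onU M z z' h).1, rfl⟩, h⟩
    · rintro ⟨z1, ⟨_, rfl⟩, h⟩
      exact h
  | cons l L ih =>
    constructor
    · rintro ⟨z1, h1, h2⟩
      obtain ⟨z2, h3, h4⟩ := (ih z1).1 h2
      exact ⟨z2, ⟨z1, h1, h3⟩, h4⟩
    · rintro ⟨z2, ⟨z1, h1, h3⟩, h4⟩
      exact ⟨z1, h1, (ih z1).2 ⟨z2, h3, h4⟩⟩

end Pool.Agent.WAQ.H2
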