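import Pool.Agent.WAQ.StmtsI

set_option autoImplicit false

namespace Pool.Agent.WAQ.H2

variable [Par]

open Pool.Agent.WAQ

theorem natAbs_mod_lt (a : ℤ) {c : ℤ} (hc : c ≠ 0) : (a % c).natAbs < c.natAbs := by
  have h1 := Int.emod_nonneg a hc
  have h2 := Int.emod_lt_abs a hc
  rw [Int.abs_eq_natAbs] at h2
  omega

theorem egn : EgnStmt := by
  intro p h0 E1 E2
  -- reversed moves
  have R1 : ∀ a b c e n : ℤ, p (a - n * c) (b - n * e) c e → p a b c e := by
    intro a b c e n h
    have h1 := E1 _ _ _ _ n h
    have e1 : a - n * c + n * c = a := by ring
    have e2 : b - n * e + n * e = b := by ring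
    rwa [e1, e2] at h1
  have R2 : ∀ a b c e n : ℤ, p a b (c - n * a) (e - n * b) → p a b c e := by
    intro a b c e n h
    have h1 := E2 _ _ _ _ n h
    have e1 : c - n * a + n * a = c := by ring
    have e2 : e - n * b + n * b = e := by ring
    rwa [e1, e2] at h1
  have key : ∀ N : ℕ, ∀ a b c e : ℤ, c.natAbs = N → a * e - b * c = 1 →
      p a b c e := by
    intro N
    induction N using Nat.strong_induction_on with
    | _ N ih =>
      intro a b c e hN hd
      by_cases hc : c = 0
      · rw [hc] at hd ⊢
        have hae : a * e = 1 := by linear_combination hd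
        apply R1 a b 0 e (b * a)
        have e1 : a - b * a * 0 = a := by ring
        have e2 : b - b * a * e = 0 := by linear_combination (-b) * hae
        rw [e1, e2]
        apply R2 a 0 0 e (-e)
        have e3 : (0 : ℤ) - -e * a = 1 := by linear_combination hae
        have e4 : e - -e * 0 = e := by ring
        rw [e3, e4]
        apply R1 a 0 1 e (a - 1)
        have e5 : a - (a - 1) * 1 = 1 := by ring
        have e6 : 0 - (a - 1) * e = e - 1 := by linear_combination (-1) * hae
        rw [e5, e6]
        apply R2 1 (e - 1) 1 e 1
        have e7 : (1 : ℤ) - 1 * 1 = 0 := by ring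
        have e8 : e - 1 * (e - 1) = 1 := by ring
        rw [e7, e8]
        apply R1 1 (e - 1) 0 1 (e - 1)
        have e9 : (1 : ℤ) - (e - 1) * 0 = 1 := by ring
        have e10 : e - 1 - (e - 1) * 1 = 0 := by ring
        rw [e9, e10]
        exact h0
      · have hr : a - (a / c) * c = a % c := by
          have := EuclideanDomain.div_add_mod a c
          linear_combination (-1) * this
        apply R1 a b c e (a / c)
        rw [hr]
        have hd' : (a % c) * e - (b - a / c * e) * c = 1 := by
          rw [← hr]
          linear_combination hd
        by_cases hr0 : a % c = 0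
        · rw [hr0] at hd' ⊢
          apply R1 0 _ c e (-1)
          have e1 : (0 : ℤ) - -1 * c = c := by ring
          rw [e1]
          apply R2 c _ c e 1
          have e2 : c - 1 * c = 0 := by ring
          rw [e2]
          apply ih 0 _ _ _ 0 _ (by simp)
          · linear_combination hd'
          · rw [← hN]
            apply Nat.pos_of_ne_zero
            rw [Ne, Int.natAbs_eq_zero]
            exact hc
        · have hr' : c - (c / (a % c)) * (a % c) = c % (a % c) := by
            have := EuclideanDomain.div_add_mod c (a % c)
            linear_combination (-1) * this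
          apply R2 _ _ c e (c / (a % c))
          rw [hr']
          have h1 := natAbs_mod_lt c hr0
          have h2 := natAbs_mod_lt a hc
          apply ih _ _ _ _ _ _ rfl
          · rw [← hr']
            linear_combination hd'
          · rw [← hN]
            exact h1.trans h2
  intro a b c e hd
  exact key _ a b c e rfl hd

end Pool.Agent.WAQ.H2
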