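import Pool.Agent.WAQ.StmtsI

set_option autoImplicit false

namespace Pool.Agent.WAQ.H2

variable [Par]

theorem ind (mst : MstStmt) (ruc : RucStmt) (rud : RudStmt) (app : AppStmt)
    (rgo : RgoStmt) : IndStmt := by
  classical
  intro ι F _ ϖ hfam S
  have lc : ∀ v, IsLC (F v) := fun v => Or.inl ⟨ϖ v, hfam.1 v⟩
  induction S using Finset.strongInduction with
  | H S ih =>
    intro V hV
    rcases S.eq_empty_or_nonempty with hS | hS
    · refine ⟨[], by simp, fun v hv => ?_⟩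
      rw [hS] at hv
      simp at hv
    · obtain ⟨q, hqS, hqmax⟩ := Finset.exists_max_image S (fun v => ϖ v) hS
      have hsub : S.erase q ⊂ S := Finset.erase_ssubset hqS
      obtain ⟨L0, hok0, hL0⟩ := ih (S.erase q) hsub V
        (fun v hv => hV v (Finset.mem_of_mem_erase hv))
      -- the place q
      obtain ⟨z, z', hz', hrz⟩ := (rud (F q) (lc q) L0 hok0 (V q) (hV q hqS).1 (hV q hqS).2).2
      obtain ⟨W, hW, hzW, hWr⟩ := ruc (F q) (lc q) L0 z z' hrz (V q) (hV q hqS).1 hz'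
      -- the other places
      have h1 : ∀ v, ∃ (u : F v × F v × F v) (O : Set (F v × F v × F v)), v ∈ S.erase q →
          OnU u ∧ IsOpen O ∧ u ∈ O ∧ (∀ z1 ∈ O, OnU z1 → RegO z1) ∧
            ∀ z1 ∈ O, OnU z1 → ∃ z2 ∈ V v, Run L0 z1 z2 := by
        intro v
        by_cases hv : v ∈ S.erase q
        · obtain ⟨u, w, hu, hw, hr⟩ := hL0 v hv
          have hVv := hV v (Finset.mem_of_mem_erase hv)
          obtain ⟨O1, hO1, huO1, h3⟩ := ruc (F v) (lc v) L0 u w hr (V v) hVv.1 hw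
          obtain ⟨O2, hO2, huO2, h4⟩ := rgo (F v) (ϖ v) (hfam.1 v) u hu
          exact ⟨u, O1 ∩ O2, fun _ => ⟨((app (F v) L0 [] u w).2 hr).1, hO1.inter hO2,
            ⟨huO1, huO2⟩, fun z1 hz1 => h4 z1 hz1.2, fun z1 hz1 => h3 z1 hz1.1⟩⟩
        · exact ⟨(0, 0, 0), ∅, fun h => absurd h hv⟩
      choose u O hO using h1
      obtain ⟨zq, wq, hzq, hwq, hRR⟩ := mst ι F ϖ (S.erase q) q hfam
        (Finset.notMem_erase q S) (fun v hv => hqmax v (Finset.mem_of_mem_erase hv)) W hW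
        ⟨z, hzW, ((app (F q) L0 [] z z').2 hrz).1⟩
      obtain ⟨L1, hok1, hS1, wq', hwq', hrq⟩ := hRR.2.2 W hW hwq u O
        (fun v hv => ⟨(hO v hv).1, (hO v hv).2.1, (hO v hv).2.2.1⟩)
      refine ⟨L1 ++ L0, fun l hl => ?_, fun v hv => ?_⟩
      · rcases List.mem_append.1 hl with h | h
        · exact hok1 l h
        · exact hok0 l h
      · by_cases hvq : v = q
        · subst hvq
          obtain ⟨w2, hw2, hr2⟩ := hWr wq' hwq' ((app (F v) L1 [] zq wq').2 hrq).2.1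
          exact ⟨zq, w2, hzq, hw2, (app (F v) L1 L0 zq w2).1.2 ⟨wq', hrq, hr2⟩⟩
        · have hv' : v ∈ S.erase q := Finset.mem_erase.2 ⟨hvq, hv⟩
          obtain ⟨u', hu', w, hw, hr⟩ := hS1 v hv'
          obtain ⟨h5, h6, _⟩ := (app (F v) L1 [] u' w).2 hr
          obtain ⟨_, _, _, h7, h8⟩ := hO v hv'
          obtain ⟨w2, hw2, hr2⟩ := h8 w hw h6
          exact ⟨u', w2, h7 u' hu' h5, hw2, (app (F v) L1 L0 u' w2).1.2 ⟨w, hr, hr2⟩⟩

end Pool.Agent.WAQ.H2
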