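import Pool.Agent.WAQ.StmtsI

/-!
# Row RUC of the squad WAP: words are continuous with open domain
-/

namespace Pool.Agent.WAQ.H2

variable [Par]

open Classical Pool.Agent.WAQ

/-- RUC. -/
theorem ruc (con : ConStmt) : RucStmt := by
  intro F _ hF L
  induction L with
  | nil =>
    intro z z' h V hV hz'
    have h1 : OnU z ∧ z' = z := h
    refine ⟨V, hV, ?_, fun z1 hz1 hu => ⟨z1, hz1, ?_⟩⟩
    · rw [← h1.2]
      exact hz'
    · exact (⟨hu, rfl⟩ : OnU z1 ∧ z1 = z1)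
  | cons l L ih =>
    intro z z' h V hV hz'
    obtain ⟨z1, h1, h2⟩ : ∃ z1, Step l z z1 ∧ Run L z1 z' := h
    obtain ⟨O1, hO1, hz1, h3⟩ := ih z1 z' h2 V hV hz'
    obtain ⟨O, hO, hz, h4⟩ := con F hF l z z1 h1 O1 hO1 hz1
    refine ⟨O, hO, hz, fun w hw hu => ?_⟩
    obtain ⟨w2, hw2, h5⟩ := h4 w hw hu
    obtain ⟨w3, hw3, h6⟩ := h3 w2 hw2 h5.2.1
    exact ⟨w3, hw3, (⟨w2, h5, h6⟩ : ∃ z1, Step l w z1 ∧ Run L z1 w3)⟩

end Pool.Agent.WAQ.H2
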