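import Pool.Agent.WAQ.StmtsI

set_option autoImplicit false

namespace Pool.Agent.WAQ.H2

variable [Par]

open Pool.Agent.WAQ

theorem sap (nqt : NqtStmt) (cmp : CmpStmt) (egn : EgnStmt) : SapStmt := by
  intro ι F _ ϖ S ϖq hloc hq hq2 hne hle u O hu a b c e hd N
  -- common multiple of the local conditions
  have com : ∀ (w : ∀ v, F v × F v × F v) (O : ∀ v, Set (F v × F v × F v)),
      (∀ v ∈ S, OnU (w v) ∧ IsOpen (O v) ∧ w v ∈ O v) →
      ∃ E : ℤ, ¬ ϖq ∣ E ∧ ∀ n : ℤ, E ∣ n → ∀ v ∈ S,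
        (∃ z' ∈ O v, Step (.act 1 n 0 1) (w v) z') ∧ (∃ z' ∈ O v, Step (.act 1 0 n 1) (w v) z') := by
    intro w O hw
    have h1 : ∀ v, ∃ e : ℤ, v ∈ S → (¬ ϖq ∣ e ∧ ∀ n : ℤ, e ∣ n →
        (∃ z' ∈ O v, Step (.act 1 n 0 1) (w v) z') ∧
          (∃ z' ∈ O v, Step (.act 1 0 n 1) (w v) z')) := by
      intro v
      by_cases hv : v ∈ S
      · obtain ⟨e, he⟩ := nqt (F v) (ϖ v) ϖq (hloc v hv) hq hq2 (hne v hv) (hle v hv) (w v)
          (hw v hv).1 (O v) (hw v hv).2.1 (hw v hv).2.2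
        exact ⟨e, fun _ => he⟩
      · exact ⟨1, fun h => absurd h hv⟩
    choose ev hev using h1
    refine ⟨∏ v ∈ S, ev v, ?_, ?_⟩
    · rw [hq.dvd_finsetProd_iff]
      rintro ⟨v, hv, hdv⟩
      exact (hev v hv).1 hdv
    · intro n hn v hv
      exact (hev v hv).2 n ((Finset.dvd_prod_of_mem ev hv).trans hn)
  -- a multiple of `E` in the residue class of `n`
  have res : ∀ (N : ℕ) (E n : ℤ), ¬ ϖq ∣ E → ∃ n' x : ℤ, E ∣ n' ∧
      n' - n = ϖq ^ N * x := by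
    intro N E n hE
    obtain ⟨x, y, hxy⟩ := ((hq.irreducible.coprime_iff_not_dvd).2 hE).pow_left (m := N)
    refine ⟨n * y * E, -(n * x), ⟨n * y, by ring⟩, ?_⟩
    linear_combination n * hxy
  refine egn (fun a b c e => ∀ (N : ℕ) (u : ∀ v, F v × F v × F v) (O : ∀ v, Set (F v × F v × F v)),
      (∀ v ∈ S, OnU (u v) ∧ IsOpen (O v) ∧ u v ∈ O v) →
      ∃ a' b' c' e' : ℤ, a' * e' - b' * c' = 1 ∧ ϖq ^ N ∣ a' - a ∧ ϖq ^ N ∣ b' - b ∧
        ϖq ^ N ∣ c' - c ∧ ϖq ^ N ∣ e' - e ∧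
        ∀ v ∈ S, ∃ w ∈ O v, Step (.act a' b' c' e') (u v) w) ?_ ?_ ?_ a b c e hd N u O hu
  · intro N u O hu
    obtain ⟨E, _, hE⟩ := com u O hu
    refine ⟨1, 0, 0, 1, by ring, by simp, by simp, by simp, by simp, fun v hv => ?_⟩
    obtain ⟨w, hw, hs⟩ := (hE 0 (dvd_zero _) v hv).1
    exact ⟨w, hw, hs⟩
  · intro a b c e n hp N u O hu
    obtain ⟨a', b', c', e', hd', ⟨xa, ha⟩, ⟨xb, hb⟩, ⟨xc, hc⟩, ⟨xe, he⟩, hs⟩ := hp N u O hu
    have h1 : ∀ v, ∃ w, v ∈ S → w ∈ O v ∧ Step (.act a' b' c' e') (u v) w := by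
      intro v
      by_cases hv : v ∈ S
      · obtain ⟨w, hw⟩ := hs v hv
        exact ⟨w, fun _ => hw⟩
      · exact ⟨(0, 0, 0), fun h => absurd h hv⟩
    choose w hw using h1
    obtain ⟨E, hE0, hE⟩ := com w O (fun v hv => ⟨(hw v hv).2.2.1, (hu v hv).2.1, (hw v hv).1⟩)
    obtain ⟨n', x, hn', hx⟩ := res N E n hE0
    refine ⟨1 * a' + n' * c', 1 * b' + n' * e', 0 * a' + 1 * c', 0 * b' + 1 * e', ?_, ?_, ?_, ?_, ?_,
      fun v hv => ?_⟩
    · linear_combination hd'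
    · exact ⟨xa + n' * xc + x * c, by linear_combination ha + n' * hc + c * hx⟩
    · exact ⟨xb + n' * xe + x * e, by linear_combination hb + n' * he + e * hx⟩
    · exact ⟨xc, by linear_combination hc⟩
    · exact ⟨xe, by linear_combination he⟩
    · obtain ⟨z', hz', hst⟩ := (hE n' hn' v hv).1
      exact ⟨z', hz', haveI := (hloc v hv).gd; cmp (F v) (hloc v hv).two_ne a' b' c' e' 1 n' 0 1 (u v) (w v) z'
        (hw v hv).2 hst⟩
  · intro a b c e n hp N u O hu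
    obtain ⟨a', b', c', e', hd', ⟨xa, ha⟩, ⟨xb, hb⟩, ⟨xc, hc⟩, ⟨xe, he⟩, hs⟩ := hp N u O hu
    have h1 : ∀ v, ∃ w, v ∈ S → w ∈ O v ∧ Step (.act a' b' c' e') (u v) w := by
      intro v
      by_cases hv : v ∈ S
      · obtain ⟨w, hw⟩ := hs v hv
        exact ⟨w, fun _ => hw⟩
      · exact ⟨(0, 0, 0), fun h => absurd h hv⟩
    choose w hw using h1
    obtain ⟨E, hE0, hE⟩ := com w O (fun v hv => ⟨(hw v hv).2.2.1, (hu v hv).2.1, (hw v hv).1⟩)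
    obtain ⟨n', x, hn', hx⟩ := res N E n hE0
    refine ⟨1 * a' + 0 * c', 1 * b' + 0 * e', n' * a' + 1 * c', n' * b' + 1 * e', ?_, ?_, ?_, ?_, ?_,
      fun v hv => ?_⟩
    · linear_combination hd'
    · exact ⟨xa, by linear_combination ha⟩
    · exact ⟨xb, by linear_combination hb⟩
    · exact ⟨xc + n' * xa + x * a, by linear_combination hc + n' * ha + a * hx⟩
    · exact ⟨xe + n' * xb + x * b, by linear_combination he + n' * hb + b * hx⟩
    · obtain ⟨z', hz', hst⟩ := (hE n' hn' v hv).2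
      exact ⟨z', hz', haveI := (hloc v hv).gd; cmp (F v) (hloc v hv).two_ne a' b' c' e' 1 0 n' 1 (u v) (w v) z'
        (hw v hv).2 hst⟩

end Pool.Agent.WAQ.H2
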