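import Pool.Agent.Helper2_WAQ.Main

/-!
# From the open surface to the smooth projective surface (WAQ)
-/

namespace Pool.Agent.WAQ.H2

open Pool.Agent.WAQ.H90

attribute [local instance] primesFact

/-- the rational points of the projective surface are dense in the product over the primes of `S`
and the real place -/
theorem prj [Par] (S : Set Nat.Primes) (hS : ∀ p ∈ S, GoodP (p : ℕ)) :
    DenseRange (fun z : XP Par.a Par.b ℚ =>
      (((fun p : S => XP.map (algebraMap ℚ ℚ_[(p.1 : ℕ)]) z), XP.map (algebraMap ℚ ℝ) z) :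
        (∀ p : S, XP Par.a Par.b ℚ_[(p.1 : ℕ)]) × XP Par.a Par.b ℝ)) := by
  have h := A_bfi S hS
  have hloc : ∀ p : S, LocSq ℚ_[(p.1 : ℕ)] := fun p =>
    locSq_of_isLoc (H95.blo (p.1 : ℕ) (hS p.1 p.2))
  have hre : LocSq ℝ := locSq_of_isRe ⟨RingEquiv.refl ℝ, fun _ => rfl⟩
  have d1 : DenseRange (Pi.map (fun p : S => XU.incl (F := ℚ_[(p.1 : ℕ)]))) :=
    DenseRange.piMap (fun p => denseRange_incl (hloc p))
  have d2 := d1.prodMap (denseRange_incl hre)
  have hc : Continuous (Prod.map (Pi.map (fun p : S =>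
      XU.incl (F := ℚ_[(p.1 : ℕ)]))) (XU.incl (F := ℝ))) :=
    (Continuous.piMap (fun p => cont_incl)).prodMap cont_incl
  have d3 := d2.comp h hc
  refine Dense.mono ?_ d3
  rintro _ ⟨z, rfl⟩
  refine ⟨XU.incl z, ?_⟩
  refine Prod.ext ?_ ?_
  · funext p
    exact XU_incl_map _ z
  · exact XU_incl_map _ z

end Pool.Agent.WAQ.H2
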